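import Pool.Agent.Helper69.QC.St

/-!
# Project QD, part C: module STB (rotation stability of the thick part)
-/

set_option autoImplicit false

open Complex MeasureTheory Set Filter Topology Metric
open scoped Real ComplexConjugate

namespace Pool.Agent.Helper42.QC

open Pool.Agent.Helper69.QC

private theorem exp_bd (κ : ℝ) : ‖1 - Complex.exp (κ * I)‖ ≤ |κ| := by
  have h := Real.norm_exp_I_mul_ofReal_sub_one_le (x := κ)
  rw [mul_comm (κ : ℂ) I, ← norm_neg, neg_sub]
  simpa [Real.norm_eq_abs] using h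

theorem cSTB : St_STB := by
  constructor
  · intro ε hε w hw κ hκ
    obtain ⟨hw1, hw2⟩ := hw
    have hn : ‖w * Complex.exp (κ * I)‖ = ‖w‖ := by
      rw [norm_mul, Complex.norm_exp_ofReal_mul_I, mul_one]
    refine ⟨by rw [hn]; exact hw1, ?_⟩
    intro p q hpq
    rw [hn]
    have h1 := hw2 p q hpq
    obtain ⟨l, hl⟩ : ∃ l : ℂ, l = gi p q := ⟨_, rfl⟩
    rw [← hl] at h1 ⊢
    obtain ⟨w', hw'⟩ : ∃ w' : ℂ, w' = w * Complex.exp (κ * I) := ⟨_, rfl⟩
    rw [← hw'] at hn ⊢
    have h2 : ‖w - w'‖ ≤ 1 - ‖w‖ := by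
      have : w - w' = w * (1 - Complex.exp (κ * I)) := by
        rw [hw']
        ring
      rw [this, norm_mul]
      calc ‖w‖ * ‖1 - Complex.exp (κ * I)‖ ≤ 1 * |κ| :=
            mul_le_mul hw1.le (exp_bd κ) (norm_nonneg _) zero_le_one
        _ ≤ 1 - ‖w‖ := by rw [one_mul]; exact hκ
    have hcl : ‖conj l‖ = ‖l‖ := Complex.norm_conj l
    have h3 : (1 - ‖w‖) * ‖l‖ ≤ ‖l + w' * conj l‖ := by
      have h4 := norm_sub_norm_le l (-(w' * conj l))
      rw [sub_neg_eq_add, norm_neg, norm_mul, hcl, hn] at h4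
      linarith
    have h5 : ‖l + w * conj l‖ ≤ 2 * ‖l + w' * conj l‖ := by
      have h6 : l + w * conj l = (l + w' * conj l) + (w - w') * conj l := by ring
      have h7 : ‖(w - w') * conj l‖ ≤ (1 - ‖w‖) * ‖l‖ := by
        rw [norm_mul, hcl]
        exact mul_le_mul_of_nonneg_right h2 (norm_nonneg _)
      calc ‖l + w * conj l‖ ≤ ‖l + w' * conj l‖ + ‖(w - w') * conj l‖ := by
            rw [h6]
            exact norm_add_le _ _
        _ ≤ 2 * ‖l + w' * conj l‖ := by linarith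
    have h8 : ‖l + w * conj l‖ ^ 2 ≤ (2 * ‖l + w' * conj l‖) ^ 2 :=
      pow_le_pow_left₀ (norm_nonneg _) h5 2
    nlinarith
  · intro ε
    have h1 : MeasurableSet {w : ℂ | ‖w‖ < 1} := measurableSet_lt measurable_norm measurable_const
    have h2 : MeasurableSet {w : ℂ | ∀ p q : ℤ, (p, q) ≠ (0, 0) →
        ε ^ 2 * (1 - ‖w‖ ^ 2) ≤ ‖gi p q + w * conj (gi p q)‖ ^ 2} := by
      simp only [setOf_forall]
      refine MeasurableSet.iInter fun p => MeasurableSet.iInter fun q => ?_
      refine MeasurableSet.iInter fun _ => ?_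
      refine measurableSet_le ?_ ?_
      · exact (by fun_prop : Continuous fun w : ℂ => ε ^ 2 * (1 - ‖w‖ ^ 2)).measurable
      · exact (by fun_prop : Continuous fun w : ℂ => ‖gi p q + w * conj (gi p q)‖ ^ 2).measurable
    exact h1.inter h2

end Pool.Agent.Helper42.QC
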